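import Mathlib

namespace Pool.Agent.H38.Ero

variable {ι D : Type} {k : ℕ}

/-- Trajectory of the system with neighbour vectors `(v i, -1)` and transition function `tr`,
started from `s`; the first argument is time. -/
def traj (v : ι → D → ℤ) (tr : (ι → Fin (k + 1)) → Fin (k + 1)) (s : (D → ℤ) → Fin (k + 1)) :
    ℕ → (D → ℤ) → Fin (k + 1)
  | 0, w => s w
  | t + 1, w => tr fun i => traj v tr s t (w + v i)

/-- The system is an eroder: the trajectory of every island is an island in space-time. -/
def Eroder (v : ι → D → ℤ) (tr : (ι → Fin (k + 1)) → Fin (k + 1)) : Prop :=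
  ∀ s : (D → ℤ) → Fin (k + 1), {w | s w ≠ 0}.Finite →
    {p : ℕ × (D → ℤ) | traj v tr s p.1 p.2 ≠ 0}.Finite

end Pool.Agent.H38.Ero
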