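import Pool.Agent.H38.Ero.Sim

namespace Pool.Agent.H38.Ero

open Pool.Agent.H38.CM Function

abbrev Vec (K : ℕ) := Option (C K) → ℤ

inductive Q (P : W) (K : ℕ) : Type
  | top : Q P K
  | fz (c : Option (C K)) : Q P K
  | home : Q P K
  | R : Q P K
  | X : Q P K
  | G : Q P K
  | sim (o : Option (S P)) : Q P K

theorem Q.finite (P : W) (K : ℕ) : Finite (Q P K) := by
  haveI := S.finite P
  refine Finite.of_surjective (fun x : Option (C K) ⊕ Option (S P) ⊕ Fin 5 =>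
    match x with
    | .inl c => Q.fz c
    | .inr (.inl o) => Q.sim o
    | .inr (.inr 0) => Q.top
    | .inr (.inr 1) => Q.home
    | .inr (.inr 2) => Q.R
    | .inr (.inr 3) => Q.X
    | .inr (.inr 4) => Q.G) ?_
  intro q
  cases q with
  | top => exact ⟨.inr (.inr 0), rfl⟩
  | fz c => exact ⟨.inl c, rfl⟩
  | home => exact ⟨.inr (.inr 1), rfl⟩
  | R => exact ⟨.inr (.inr 2), rfl⟩
  | X => exact ⟨.inr (.inr 3), rfl⟩
  | G => exact ⟨.inr (.inr 4), rfl⟩
  | sim o => exact ⟨.inr (.inl o), rfl⟩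

variable {P : W} {K : ℕ}

def Dn (j : ℤ) (a : Vec K) : Prop := ∀ c, -j ≤ a c ∧ a c ≤ 0

def eE : Vec K
  | none => 1
  | some _ => 0

def up (m : C K → ℤ) : Vec K
  | none => 0
  | some c => m c

def ga : Vec K
  | some .U => 1
  | some (.reg i) => if i.val = 0 then -2 else 0
  | _ => 0

def gb : Vec K
  | none => 1
  | some (.reg i) => if i.val = 0 then 1 else 0
  | _ => 0

def HM (N : Q P K → Vec K → Vec K → Prop) : Prop := ∃ a, Dn 1 a ∧ a none = -1 ∧ N .home a 0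

def cont : Q P K → (Q P K → Vec K → Vec K → Prop) → Prop
  | .top, _ => True
  | .fz _, _ => True
  | .home, N => HM N
  | .R, N => (∃ a, Dn 2 a ∧ a none = -2 ∧ N .R a 0) ∨ N .X 0 0
  | .X, N => HM N ∨ N .G 0 eE
  | .G, N => (HM N ∨ N .G ga gb) ∧ (HM N ∨ N (.sim (some (ent P))) 0 eE)
  | .sim (some s), N => HM N ∨ ∃ m o, tT P s m o ∧ N (.sim o) (up (mv m)) eE
  | .sim none, _ => False

def canFz : Q P K → Option (C K) → Prop
  | .fz c', c => c = c'
  | .X, _ => True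
  | .sim (some s), c => ∃ c', c = some c' ∧ tC P s c'
  | _, _ => False

def Phi (q : Q P K) (N : Q P K → Vec K → Vec K → Prop) : Prop :=
  (∃ a, Dn 1 a ∧ N .top a 0) ∧ (∃ a, Dn 1 a ∧ N .R a 0) ∧
    (∀ c, canFz q c → ∃ a, Dn 1 a ∧ a c = 0 ∧ N (.fz c) a 0) ∧ cont q N

def Bd (a b : Vec K) : Prop := ∀ c, -2 ≤ a c ∧ a c ≤ 2 ∧ (b c = 0 ∨ b c = 1)

theorem Dn.bd {j : ℤ} {a : Vec K} (h : Dn j a) (hj : j ≤ 2) : Bd a 0 :=
  fun c => ⟨by have := h c; omega, by have := h c; omega, Or.inl rfl⟩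

theorem bd_eE : Bd (0 : Vec K) eE := fun c => by cases c <;> simp [eE]
theorem bd_up (m : Mv) : Bd (up (mv m) : Vec K) eE := fun c => by
  cases c with
  | none => simp [eE, up]
  | some c => have := mv_bd m c; simp only [eE, up, true_or, and_true]; omega
theorem bd_g : Bd (ga : Vec K) gb := fun c => by
  rcases c with _ | _ | _ | i <;> simp only [ga, gb] <;> (try split_ifs) <;> simp

theorem Phi.mono {q : Q P K} {N N' : Q P K → Vec K → Vec K → Prop}
    (h : ∀ q a b, Bd a b → N q a b → N' q a b) (hp : Phi q N) : Phi q N' := by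
  have hm : HM N → HM N' := fun ⟨a, h1, h2, h3⟩ => ⟨a, h1, h2, h _ _ _ (h1.bd (by omega)) h3⟩
  obtain ⟨⟨a, a1, a2⟩, ⟨b, b1, b2⟩, h3, h4⟩ := hp
  refine ⟨⟨a, a1, h _ _ _ (a1.bd (by omega)) a2⟩, ⟨b, b1, h _ _ _ (b1.bd (by omega)) b2⟩,
    fun c hc => ?_, ?_⟩
  · obtain ⟨a, a1, a2, a3⟩ := h3 c hc
    exact ⟨a, a1, a2, h _ _ _ (a1.bd (by omega)) a3⟩
  · rcases q with _ | _ | _ | _ | _ | _ | _ | s
    · trivial
    · trivial
    · exact hm h4
    · exact h4.imp (fun ⟨a, h1, h2, h3⟩ => ⟨a, h1, h2, h _ _ _ (h1.bd (by omega)) h3⟩)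
        (h _ _ _ (Dn.bd (j := 0) (fun _ => by simp) (by omega)))
    · exact h4.imp hm (h _ _ _ bd_eE)
    · exact ⟨h4.1.imp hm (h _ _ _ bd_g), h4.2.imp hm (h _ _ _ bd_eE)⟩
    · exact h4
    · exact h4.imp hm fun ⟨m, o, h1, h2⟩ => ⟨m, o, h1, h _ _ _ (bd_up m) h2⟩

/-! ### If the program halts, the survivor loses -/

section lose

variable {B : ℤ} {n : ℕ} {Wn : ℕ → Q P K → Vec K → Prop}
  (h0 : ∀ q y, Wn 0 q y → ∀ c, |y c| ≤ B)
  (hs : ∀ τ q y, Wn (τ + 1) q y → Phi q fun q' a b => Wn τ q' (y + a + ((n : ℤ) + 2) • b))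
include h0 hs

theorem L1 : ∀ τ q y, Wn τ q y → ∀ c, -B ≤ y c ∧ y c ≤ B + τ := by
  intro τ
  induction τ with
  | zero => intro q y h c; simpa using abs_le.1 (h0 q y h c)
  | succ τ ih =>
    intro q y h c
    obtain ⟨a, a1, a2⟩ := (hs _ _ _ h).1
    have := ih _ _ a2 c
    have := a1 c
    simp at *; omega

theorem L2 : ∀ τ q y c, canFz q c → Wn τ q y → y c ≤ B := by
  intro τ
  induction τ with
  | zero => intro q y c _ h; exact (abs_le.1 (h0 q y h c)).2
  | succ τ ih =>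
    intro q y c hc h
    obtain ⟨a, a1, a2, a3⟩ := (hs _ _ _ h).2.2.1 c hc
    simpa [a2] using ih (.fz c) _ c rfl a3

theorem L3 : ∀ τ y, Wn τ .home y → τ - B ≤ y none := by
  intro τ
  induction τ with
  | zero => intro y h; simpa using (abs_le.1 (h0 _ y h none)).1
  | succ τ ih =>
    intro y h
    obtain ⟨a, a1, a2, a3⟩ := (hs _ _ _ h).2.2.2
    have := ih _ a3
    simp [a2] at this ⊢; omega

theorem L4 : ∀ τ y, Wn τ .R y → ∃ τ' : ℕ, (τ' = 0 ∨ ∃ y', Wn τ' .X y') ∧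
    2 * (τ : ℤ) ≤ 2 * τ' + y none + B + 2 := by
  intro τ
  induction τ with
  | zero => intro y h; exact ⟨0, Or.inl rfl, by have := abs_le.1 (h0 _ y h none); simp; omega⟩
  | succ τ ih =>
    intro y h
    rcases (hs _ _ _ h).2.2.2 with ⟨a, a1, a2, a3⟩ | a3
    · obtain ⟨τ', b1, b2⟩ := ih _ a3
      exact ⟨τ', b1, by simp [a2] at b2 ⊢; omega⟩
    · have := L1 h0 hs _ _ _ h none
      exact ⟨τ, Or.inr ⟨_, a3⟩, by push_cast; omega⟩

def VV (Wn : ℕ → Q P K → Vec K → Prop) (ψ : ℤ) (q : Q P K) (z : C K → ℤ) : Prop :=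
  ∃ (τ : ℕ) (y : Vec K), Wn τ q y ∧ ψ ≤ τ - y none ∧ ∀ c, y (some c) = z c

omit h0 hs in
theorem VV.mono {ψ ψ' : ℤ} {q : Q P K} {z : C K → ℤ} (h : ψ' ≤ ψ) (hv : VV Wn ψ q z) :
    VV Wn ψ' q z := by
  obtain ⟨τ, y, h1, h2, h3⟩ := hv
  exact ⟨τ, y, h1, h.trans h2, h3⟩

theorem VV.step {ψ : ℤ} {q : Q P K} {z : C K → ℤ} (hv : VV Wn ψ q z) (hψ : B + 1 < ψ) :
    ∃ N, cont q N ∧ ¬ HM N ∧ ∀ q' a b, N q' a b → a none = 0 → b none = 1 →
      VV Wn (ψ - (n + 3)) q' fun c => z c + a (some c) + (n + 2) * b (some c) := by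
  obtain ⟨τ, y, h1, h2, h3⟩ := hv
  have := L1 h0 hs _ _ _ h1 none
  obtain ⟨τ, rfl⟩ : ∃ τ', τ = τ' + 1 := ⟨τ - 1, by omega⟩
  refine ⟨_, (hs _ _ _ h1).2.2.2, ?_, fun q' a b h ha hb => ⟨τ, _, h, ?_, fun c => ?_⟩⟩
  · rintro ⟨a, a1, a2, a3⟩
    have := L3 h0 hs _ _ a3
    simp [a2] at this h2; omega
  · simp [ha, hb] at h2 ⊢; omega
  · simp [h3]

theorem snd : Snd B (n + 3) (tT P) (tC P) fun ψ o => VV Wn ψ (.sim o) where
  lo := fun ⟨τ, y, h1, h2, h3⟩ c => h3 c ▸ (L1 h0 hs _ _ _ h1 (some c)).1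
  ck := fun ⟨τ, y, h1, h2, h3⟩ hc => h3 _ ▸ L2 h0 hs _ (.sim (some _)) _ _ ⟨_, rfl, hc⟩ h1
  st := fun h1 h2 => by
    obtain ⟨N, a1, a2, a3⟩ := h1.step h0 hs h2
    obtain ⟨m, o, b1, b2⟩ := a1.resolve_left a2
    refine ⟨m, o, b1, ?_⟩
    convert a3 _ _ _ b2 rfl rfl using 1
    funext c; simp [up, eE]
  mono := VV.mono

theorem grow (j : ℕ) : ∀ ψ z, VV Wn ψ .G z → B + 1 + j * (n + 3) < ψ →
    ∃ z', VV Wn (ψ - j * (n + 3)) .G z' ∧ z' .U = z .U + j ∧ z' .Y = z .Y ∧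
      ∀ i, z' (.reg i) = z (.reg i) + init n i * j := by
  induction j with
  | zero => intro ψ z h _; exact ⟨z, by simpa using h, by simp, rfl, by simp⟩
  | succ j ih =>
    intro ψ z h h2
    push_cast at h2 ⊢
    obtain ⟨z', b1, b2, b3, b4⟩ := ih ψ z h (by nlinarith)
    obtain ⟨N, a1, a2, a3⟩ := b1.step h0 hs (by nlinarith)
    refine ⟨_, (a3 _ _ _ (a1.1.resolve_left a2) rfl rfl).mono (by nlinarith), ?_, ?_, fun i => ?_⟩
    · simp [ga, gb, b2]; ring
    · simp [ga, gb, b3]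
    · simp only [ga, gb, b4, init]
      by_cases hi : i.val = 0
      · simp [hi]; ring
      · simp [hi]

theorem lose (hK : rb P ≤ K) (hB : 0 ≤ B) (hh : ∃ v, Ev P (init n) v) :
    ∃ T, ∀ τ, T ≤ τ → ∀ q y, ¬ Wn τ q y := by
  obtain ⟨v, hv⟩ := hh
  obtain ⟨e, he, h1⟩ := sim (K := K) (M := (n : ℤ) + 3) hB (by positivity) hv hK B le_rfl
  obtain ⟨U0, hU⟩ : ∃ U0 : ℕ, e + B < U0 := ⟨(e + B).toNat + 1, by omega⟩
  obtain ⟨Δ, hΔ, h1⟩ := h1 U0 hU
  have hp : (0 : ℤ) ≤ U0 * (n + 3) := by positivity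
  obtain ⟨T, hT⟩ : ∃ T : ℕ, 2 * (2 * B + 2 + Δ + U0 * (n + 3) + 2 * (n + 3)) + 2 * B + 4 ≤ T :=
    ⟨(2 * (2 * B + 2 + Δ + U0 * (n + 3) + 2 * (n + 3)) + 2 * B + 4).toNat, by omega⟩
  refine ⟨T + 1, fun τ hτ q y h => ?_⟩
  obtain ⟨τ, rfl⟩ : ∃ τ', τ = τ' + 1 := ⟨τ - 1, by omega⟩
  obtain ⟨a, -, a2⟩ := (hs _ _ _ h).2.1
  have a3 := (L1 h0 hs _ _ _ a2 none).2
  obtain ⟨τ', rfl | ⟨y', b1⟩, b2⟩ := L4 h0 hs _ _ a2
  · omega
  have c1 := fun c => (L1 h0 hs _ _ _ b1 c).1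
  have c2 := fun c => L2 h0 hs _ .X _ c trivial b1
  have c3 := c2 none
  have d1 : VV Wn (τ' - B) .X fun c => y' (some c) := ⟨τ', y', b1, by omega, fun _ => rfl⟩
  obtain ⟨N, e1, e2, e3⟩ := d1.step h0 hs (by omega)
  have d2 := e3 _ _ _ (e1.resolve_left e2) rfl rfl
  obtain ⟨z', d3, f1, f2, f3⟩ := grow h0 hs U0 _ _ d2 (by omega)
  obtain ⟨N, e1, e2, e3⟩ := d3.step h0 hs (by omega)
  have d4 := e3 _ _ _ (e1.2.resolve_left e2) rfl rfl
  obtain ⟨z2, -, d5⟩ := h1 _ (snd h0 hs) _ _ (by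
    refine ⟨?_, ?_, fun i => ?_⟩
    · simp only [eE, f1, Pi.zero_apply, abs_le]
      have := c1 (some .U); have := c2 (some .U); omega
    · simp only [eE, f2, Pi.zero_apply, abs_le]
      have := c1 (some .Y); have := c2 (some .Y); omega
    · simp only [eE, f3, Pi.zero_apply, abs_le]
      have := c1 (some (.reg i)); have := c2 (some (.reg i)); omega) d4 (by omega)
  obtain ⟨N, e1, -⟩ := VV.step h0 hs d5 (by omega)
  exact e1

end lose

/-! ### If the program runs forever, the survivor wins -/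

def Sp (n : ℕ) (τ : ℕ) (y : Vec K) : Q P K → Prop
  | .fz c => y c ≤ 0
  | .home => τ - ((n : ℤ) + 2) ≤ y none
  | .X => y none ≤ 0
  | .G => ∃ U0, Ex U0 (init n) fun c => y (some c)
  | .sim o => ∃ U0, tI' U0 P (init n) o fun c => y (some c)
  | _ => True

def Base (n : ℕ) (τ : ℕ) (y : Vec K) : Prop :=
  (∀ c, 0 ≤ y (some c) ∧ y (some c) ≤ max (y none) 0) ∧ y none ≤ τ ∧
    (-1 ≤ y none ∨ τ - ((n : ℤ) + 2) ≤ y none)

def Good (n : ℕ) (τ : ℕ) (q : Q P K) (y : Vec K) : Prop := Base n τ y ∧ Sp n τ y q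

theorem good_zero {n : ℕ} {q : Q P K} {y : Vec K} (h : Good n 0 q y) (c : Option (C K)) :
    |y c| ≤ n + 2 := by
  obtain ⟨⟨h1, h2, h3⟩, -⟩ := h
  rw [abs_le]
  cases c with
  | none => omega
  | some c => have := h1 c; omega

theorem tI'_nonneg {U0 : ℕ} {v : ℕ → ℕ} {o : Option (S P)} {z : C K → ℤ} (h : tI' U0 P v o z)
    (c : C K) : 0 ≤ z c := by
  cases o with
  | none => obtain ⟨_, _, h⟩ := h; exact h.nonneg c
  | some s => exact (tI_nonneg U0 P v s z h c).1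

theorem good_step {n : ℕ} (hn : ¬ ∃ v, Ev P (init n) v) {τ : ℕ} {q : Q P K} {y : Vec K}
    (h : Good n (τ + 1) q y) :
    Phi q fun q' a b => Good n τ q' (y + a + ((n : ℤ) + 2) • b) := by
  obtain ⟨⟨h1, h2, h3⟩, h4⟩ := h
  push_cast at h2 h3
  let nm : Vec K := fun c => if 0 < y c then -1 else 0
  have nm1 : Dn 1 nm := fun c => by simp only [nm]; split_ifs <;> omega
  have nm2 : Base n τ (y + nm + ((n : ℤ) + 2) • (0 : Vec K)) := by
    rw [smul_zero, add_zero]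
    simp only [Base, Pi.add_apply, nm]
    refine ⟨fun c => ?_, ?_, ?_⟩
    · have := h1 c; split_ifs <;> omega
    · split_ifs <;> omega
    · split_ifs <;> omega
  have hm : (τ : ℤ) + 1 - (n + 2) ≤ y none →
      HM fun (q' : Q P K) a b => Good n τ q' (y + a + ((n : ℤ) + 2) • b) := by
    intro h5
    refine ⟨fun c => if c = none then -1 else nm c, fun c => ?_, rfl, ⟨fun c => ?_, ?_, ?_⟩, ?_⟩
    · have := nm1 c; simp only; split_ifs <;> omega
    · have := h1 c; simp [nm]; split_ifs <;> omega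
    · simp; omega
    · simp; omega
    · simp [Sp]; omega
  have hb : ∀ a b : Vec K, ¬ (τ : ℤ) + 1 - (n + 2) ≤ y none → a none = 0 → b none = 1 →
      (∀ c, a (some c) + (n + 2) * b (some c) ≤ n + 1) →
      (∀ c, 0 ≤ (y + a + ((n : ℤ) + 2) • b) (some c)) →
      Base n τ (y + a + ((n : ℤ) + 2) • b) := by
    intro a b h5 ha hb h6 h7
    refine ⟨fun c => ⟨h7 c, ?_⟩, ?_, ?_⟩
    · have := h1 c; have := h6 c
      simp only [Pi.add_apply, Pi.smul_apply, smul_eq_mul, ha, hb]; omega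
    · simp only [Pi.add_apply, Pi.smul_apply, smul_eq_mul, ha, hb]; omega
    · simp only [Pi.add_apply, Pi.smul_apply, smul_eq_mul, ha, hb]; omega
  refine ⟨⟨nm, nm1, nm2, trivial⟩, ⟨nm, nm1, nm2, trivial⟩, fun c hc => ?_, ?_⟩
  · have hy : y c ≤ 0 := by
      rcases q with _ | c' | _ | _ | _ | _ | _ | s <;> try exact hc.elim
      · cases hc; exact h4
      · cases c with
        | none => exact h4
        | some c => have := h1 c; simp only [Sp] at h4; omega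
      · obtain ⟨c', rfl, hc⟩ := hc
        obtain ⟨U0, h4⟩ := h4
        exact (tI_nonneg U0 P _ s _ h4 c').2 hc
    have : nm c = 0 := if_neg (by omega)
    exact ⟨nm, nm1, this, nm2, by simpa [Sp, this] using hy⟩
  · by_cases h5 : (τ : ℤ) + 1 - (n + 2) ≤ y none
    · rcases q with _ | _ | _ | _ | _ | _ | _ | s
      · trivial
      · trivial
      · exact hm h5
      · by_cases h6 : 1 ≤ y none
        · refine Or.inl ⟨fun c => if c = none then -2 else -min 2 (y c), fun c => ?_, rfl,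
            ⟨fun c => ?_, ?_, ?_⟩, trivial⟩
          · cases c with
            | none => simp
            | some c => have := h1 c; simp only [reduceCtorEq, if_false]; omega
          · have := h1 c; simp; omega
          · simp; omega
          · simp; omega
        · refine Or.inr ⟨⟨fun c => by simpa using h1 c, by simp; omega, by simp; omega⟩, ?_⟩
          simp [Sp]; omega
      · exact Or.inl (hm h5)
      · exact ⟨Or.inl (hm h5), Or.inl (hm h5)⟩
      · obtain ⟨U0, v, h4, -⟩ := h4; exact hn ⟨v, h4⟩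
      · exact Or.inl (hm h5)
    · rcases q with _ | _ | _ | _ | _ | _ | _ | s
      · trivial
      · trivial
      · simp only [Sp] at h4; push_cast at h4; exact absurd h4 h5
      · by_cases h6 : 1 ≤ y none
        · refine Or.inl ⟨fun c => if c = none then -2 else -min 2 (y c), fun c => ?_, rfl,
            ⟨fun c => ?_, ?_, ?_⟩, trivial⟩
          · cases c with
            | none => simp
            | some c => have := h1 c; simp only [reduceCtorEq, if_false]; omega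
          · have := h1 c; simp; omega
          · simp; omega
          · simp; omega
        · refine Or.inr ⟨⟨fun c => by simpa using h1 c, by simp; omega, by simp; omega⟩, ?_⟩
          simp [Sp]; omega
      · have hz : ∀ c, y (some c) = 0 := fun c => by
          have := h1 c; simp only [Sp] at h4; omega
        refine Or.inr ⟨hb _ _ h5 rfl rfl (fun c => by simp [eE]; omega)
          (fun c => by simp [eE, hz]), 0, ?_, ?_, fun i => ?_⟩ <;> simp [eE, hz]
      · obtain ⟨U0, h4⟩ := h4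
        have hg : Ex (U0 + 1) (init n) fun c => (y + ga + ((n : ℤ) + 2) • gb : Vec K) (some c) := by
          obtain ⟨a1, a2, a3⟩ := h4
          simp only at a1 a2 a3
          refine ⟨by simp [ga, gb, a1], by simp [ga, gb, a2], fun i => ?_⟩
          simp only [Pi.add_apply, Pi.smul_apply, smul_eq_mul, ga, gb, a3, init]
          by_cases hi : i.val = 0
          · simp [hi]; ring
          · simp [hi]
        have he : (fun c => (y + 0 + ((n : ℤ) + 2) • eE : Vec K) (some c)) = fun c => y (some c) := by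
          funext c; simp [eE]
        refine ⟨Or.inr ⟨hb _ _ h5 rfl rfl (fun c => ?_) hg.nonneg, _, hg⟩,
          Or.inr ⟨hb _ _ h5 rfl rfl (fun c => by simp [eE]; omega)
            (fun c => by simpa [eE] using (h1 c).1), U0, ?_⟩⟩
        · rcases c with _ | _ | i <;> simp only [ga, gb] <;> (try split_ifs) <;> omega
        · rw [he]; exact tI_ent U0 P _ _ h4
      · obtain ⟨U0, v, h4, -⟩ := h4; exact hn ⟨v, h4⟩
      · obtain ⟨U0, h4⟩ := h4
        obtain ⟨m, o, a1, a2⟩ := tI_step U0 P _ s _ h4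
        have he : (fun c => (y + up (mv m) + ((n : ℤ) + 2) • eE : Vec K) (some c)) =
            (fun c => y (some c)) + mv m := by
          funext c; simp [eE, up]
        rw [← he] at a2
        refine Or.inr ⟨m, o, a1, hb _ _ h5 rfl rfl (fun c => ?_) (tI'_nonneg a2), U0, a2⟩
        have := mv_bd m c
        simp [eE, up]; omega

end Pool.Agent.H38.Ero
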