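import Pool.Agent.H38.Ero.Game
import Pool.Agent.H38.Ero.Defs

namespace Pool.Agent.H38.Ero

open Pool.Agent.H38.CM Function

theorem eroder_of_equiv {ι ι' D D' : Type} {k : ℕ} (e : ι' ≃ ι) (f : D' ≃ D) (v : ι → D → ℤ)
    (tr : (ι → Fin (k + 1)) → Fin (k + 1)) (h : Eroder v tr) :
    Eroder (fun i c => v (e i) (f c)) (fun x => tr fun i => x (e.symm i)) := by
  intro s hs
  have key : ∀ t (w : D → ℤ), traj (fun i c => v (e i) (f c)) (fun x => tr fun i => x (e.symm i))
      s t (fun c => w (f c)) = traj v tr (fun w => s fun c => w (f c)) t w := by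
    intro t
    induction t with
    | zero => intro w; rfl
    | succ t ih =>
      intro w
      simp only [traj]
      congr 1
      funext i
      rw [← ih]
      simp only [Equiv.apply_symm_apply]
      rfl
  have h1 := h (fun w => s fun c => w (f c)) (by
    refine (hs.image fun w c => w (f.symm c)).subset fun w hw => ⟨_, hw, ?_⟩
    funext c; simp)
  refine (h1.image fun p => (p.1, fun c => p.2 (f c))).subset fun p hp =>
    ⟨(p.1, fun c => p.2 (f.symm c)), ?_, by simp⟩
  simp only [Set.mem_ofPred_eq] at hp ⊢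
  rw [← key]
  simpa using hp

theorem eroder_equiv {ι ι' D D' : Type} {k : ℕ} (e : ι' ≃ ι) (f : D' ≃ D) (v : ι → D → ℤ)
    (tr : (ι → Fin (k + 1)) → Fin (k + 1)) :
    Eroder (fun i c => v (e i) (f c)) (fun x => tr fun i => x (e.symm i)) ↔ Eroder v tr :=
  ⟨fun h => by simpa using eroder_of_equiv e.symm f.symm _ _ h, eroder_of_equiv e f v tr⟩

variable {P : W} {K k : ℕ}

abbrev Kd (K : ℕ) := Option (C K) → Fin 5 × Fin 2
abbrev Nb (P : W) (K : ℕ) := Q P K × Q P K × Kd K

def kA (κ : Kd K) : Vec K := fun c => ((κ c).1 : ℕ) - 2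
def kB (κ : Kd K) : Vec K := fun c => ((κ c).2 : ℕ)

theorem exists_kd {a b : Vec K} (h : Bd a b) : ∃ κ, kA κ = a ∧ kB κ = b := by
  refine ⟨fun c => (⟨(a c + 2).toNat, by have := h c; omega⟩, ⟨(b c).toNat, by have := h c; omega⟩),
    ?_, ?_⟩ <;> funext c <;> have := h c <;> simp only [kA, kB] <;> omega

def pos (j : ℤ) (y : Vec K) : Option (Option (C K)) → ℤ
  | none => j
  | some c => y c

variable (lv : Q P K → Fin (k + 1))

def vec (n : ℕ) (i : Nb P K) : Option (Option (C K)) → ℤ :=
  pos (((lv i.2.1 : ℕ) : ℤ) - (lv i.1 : ℕ)) (kA i.2.2 + ((n : ℤ) + 2) • kB i.2.2)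

def NN (x : Nb P K → Fin (k + 1)) (q : Q P K) : Q P K → Vec K → Vec K → Prop :=
  fun q' a b => ∃ κ, kA κ = a ∧ kB κ = b ∧ lv q' ≤ x (q, q', κ)

open Classical in
noncomputable def trf [Fintype (Q P K)] (x : Nb P K → Fin (k + 1)) : Fin (k + 1) :=
  (Finset.univ.filter fun q => Phi q (NN lv x q)).sup lv

variable [Fintype (Q P K)]

theorem trf_mono : Monotone (trf lv) := by
  intro x x' h
  refine Finset.sup_mono fun q hq => ?_
  simp only [Finset.mem_filter, Finset.mem_univ, true_and] at hq ⊢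
  exact hq.mono fun q' a b _ ⟨κ, h1, h2, h3⟩ => ⟨κ, h1, h2, h3.trans (h _)⟩

theorem trf_ne {x : Nb P K → Fin (k + 1)} (h : trf lv x ≠ 0) : ∃ q, lv q ≤ trf lv x := by
  classical
  rcases (Finset.univ.filter fun q => Phi q (NN lv x q)).eq_empty_or_nonempty with e | ⟨q, hq⟩
  · exact absurd (by rw [trf, e]; rfl) h
  · exact ⟨q, by rw [trf]; exact Finset.le_sup (by convert hq)⟩

def Wj (n : ℕ) (s : (Option (Option (C K)) → ℤ) → Fin (k + 1)) (τ : ℕ) (q : Q P K) (j : ℤ)
    (y : Vec K) : Prop := lv q ≤ traj (vec lv n) (trf lv) s τ (pos j y)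

omit [Fintype (Q P K)] in
theorem pos_add (n : ℕ) (j : ℤ) (y : Vec K) (q q' : Q P K) (κ : Kd K) :
    pos j y + vec lv n (q, q', κ) =
      pos (j + (lv q' : ℕ) - (lv q : ℕ)) (y + kA κ + ((n : ℤ) + 2) • kB κ) := by
  funext c
  cases c with
  | none => simp [pos, vec]; ring
  | some c => simp [pos, vec]; ring

variable {lv} {n : ℕ} {s : (Option (Option (C K)) → ℤ) → Fin (k + 1)}

theorem Wj.bwd {τ : ℕ} {q : Q P K} {j : ℤ} {y : Vec K}
    (h : Phi q fun q' a b => Wj lv n s τ q' (j + (lv q' : ℕ) - (lv q : ℕ))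
      (y + a + ((n : ℤ) + 2) • b)) : Wj lv n s (τ + 1) q j y := by
  classical
  rw [Wj, traj, trf]
  refine Finset.le_sup (f := lv) ?_
  simp only [Finset.mem_filter, Finset.mem_univ, true_and]
  refine h.mono fun q' a b hb h => ?_
  obtain ⟨κ, rfl, rfl⟩ := exists_kd hb
  exact ⟨κ, rfl, rfl, by simp only [pos_add]; exact h⟩

variable (h0 : ∀ q, 0 < lv q)
include h0

theorem Wj.fwd {τ : ℕ} {q : Q P K} {j : ℤ} {y : Vec K} (h : Wj lv n s (τ + 1) q j y) :
    ∃ q2, lv q ≤ lv q2 ∧ Phi q2 fun q' a b => Wj lv n s τ q' (j + (lv q' : ℕ) - (lv q2 : ℕ))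
      (y + a + ((n : ℤ) + 2) • b) := by
  classical
  rw [Wj, traj, trf, Finset.le_sup_iff (h0 q)] at h
  obtain ⟨q2, h1, h2⟩ := h
  simp only [Finset.mem_filter, Finset.mem_univ, true_and] at h1
  refine ⟨q2, h2, h1.mono ?_⟩
  rintro q' a b - ⟨κ, rfl, rfl, h⟩
  simp only [pos_add] at h
  exact h

variable (hinj : Injective lv) (htop : lv .top = Fin.last k)
include hinj htop

theorem eroder_of_halts (hK : rb P ≤ K) (hh : ∃ v, Ev P (init n) v) :
    Eroder (vec lv n) (trf lv) := by
  intro s hs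
  obtain ⟨B, hB0, hB⟩ : ∃ B : ℤ, 0 ≤ B ∧ ∀ w, s w ≠ 0 → ∀ c, |w c| ≤ B := by
    obtain ⟨B, hB⟩ := (hs.image fun w => ∑ c, |w c|).bddAbove
    refine ⟨max B 0, le_max_right _ _, fun w hw c => le_trans ?_ (le_max_left _ _)⟩
    exact (Finset.single_le_sum (f := fun c => |w c|) (fun _ _ => abs_nonneg _)
      (Finset.mem_univ c)).trans (hB ⟨w, hw, rfl⟩)
  have z0 : ∀ q j y, Wj lv n s 0 q j y → ∀ c, |pos j y c| ≤ B := fun q j y h =>
    hB _ (lt_of_lt_of_le (h0 q) h).ne'
  have b1 : ∀ τ q j y, Wj lv n s τ q j y →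
      (∀ c, |y c| ≤ B + τ) ∧ -B - k ≤ j - (lv q : ℕ) ∧ j ≤ B := by
    intro τ
    induction τ with
    | zero =>
      intro q j y h
      have h1 := abs_le.1 (z0 q j y h none)
      have := (lv q).2
      simp only [pos] at h1
      exact ⟨fun c => by simpa [pos] using z0 q j y h (some c), by omega, h1.2⟩
    | succ τ ih =>
      intro q j y h
      obtain ⟨q2, h1, ⟨a, a1, a2⟩, -⟩ := h.fwd h0
      obtain ⟨c1, c2, c3⟩ := ih _ _ _ a2
      have := (lv q2).2
      have h1' : (lv q : ℕ) ≤ lv q2 := h1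
      simp only [htop, Fin.val_last] at c2 c3
      refine ⟨fun c => ?_, by omega, by omega⟩
      rw [smul_zero, add_zero] at c1
      have := c1 c
      have := a1 c
      simp only [Pi.add_apply, abs_le] at *
      push_cast; omega
  have b2 : ∀ p : ℕ, ∃ T, ∀ τ, T ≤ τ → ∀ q j y, j - (lv q : ℕ) < -B - k + p →
      ¬ Wj lv n s τ q j y := by
    intro p
    induction p with
    | zero => exact ⟨0, fun τ _ q j y h1 h2 => by have := (b1 _ _ _ _ h2).2.1; omega⟩
    | succ p ih =>
      obtain ⟨T, hT⟩ := ih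
      obtain ⟨T', hT'⟩ := lose (B := B + T) (n := n) (Wn := fun τ q y =>
        ∃ j, j - (lv q : ℕ) < -B - k + (p + 1 : ℕ) ∧ Wj lv n s (T + τ) q j y)
        (fun q y ⟨j, _, h⟩ => (b1 _ _ _ _ h).1) (by
          rintro τ q y ⟨j, h1, h⟩
          obtain ⟨q2, h2, h3⟩ := Wj.fwd h0 (τ := T + τ) h
          by_cases e : q = q2
          · subst e
            exact h3.mono fun q' a b _ h => ⟨_, by omega, h⟩
          · exfalso
            obtain ⟨a, -, a2⟩ := h3.1
            have : (lv q : ℕ) < lv q2 := lt_of_le_of_ne h2 fun e' => e (hinj (Fin.ext e'))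
            exact hT _ (by omega) _ _ _ (by push_cast at h1; omega) a2) hK (by omega) hh
      refine ⟨T + T', fun τ hτ q j y h1 h2 => hT' (τ - T) (by omega) q y ⟨j, h1, ?_⟩⟩
      rwa [show T + (τ - T) = τ by omega]
  obtain ⟨T, hT⟩ := b2 ((2 * B).toNat + k + 1)
  refine ((Set.finite_Iic T).prod (Set.finite_Icc (fun _ => -B - k - T) fun _ => B + k + T)).subset ?_
  rintro ⟨τ, w⟩ hp
  simp only [Set.mem_ofPred_eq] at hp
  cases τ with
  | zero =>
    have := hB w hp
    exact ⟨Nat.zero_le _, fun c => by have := abs_le.1 (this c); simp only; omega,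
      fun c => by have := abs_le.1 (this c); simp only; omega⟩
  | succ τ =>
    obtain ⟨q, hq⟩ := trf_ne lv hp
    have hw : w = pos (w none) fun c => w (some c) := by funext c; cases c <;> rfl
    have hW : Wj lv n s (τ + 1) q (w none) fun c => w (some c) := by rw [Wj, ← hw]; exact hq
    obtain ⟨c1, c2, c3⟩ := b1 _ _ _ _ hW
    have hτ : τ + 1 ≤ T := by
      by_contra hc
      exact hT _ (by omega) _ _ _ (by push_cast; omega) hW
    refine ⟨hτ, fun c => ?_, fun c => ?_⟩
    · cases c with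
      | none => simp only; omega
      | some c => have := abs_le.1 (c1 c); simp only; omega
    · cases c with
      | none => simp only; omega
      | some c => have := abs_le.1 (c1 c); simp only; omega

omit hinj htop in
theorem halts_of_eroder (h : Eroder (vec lv n) (trf lv)) : ∃ v, Ev P (init n) v := by
  classical
  by_contra hn
  let s : (Option (Option (C K)) → ℤ) → Fin (k + 1) := fun w =>
    if ∀ c, |w c| ≤ n + 2 + k then Fin.last k else 0
  have hs : {w | s w ≠ 0}.Finite := by
    refine (Set.finite_Icc (fun _ => -((n : ℤ) + 2 + k)) fun _ => n + 2 + k).subset fun w hw => ?_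
    have : ∀ c, |w c| ≤ n + 2 + k := by
      by_contra hc
      exact hw (if_neg hc)
    exact ⟨fun c => (abs_le.1 (this c)).1, fun c => (abs_le.1 (this c)).2⟩
  have key : ∀ τ q y, Good n τ q y → Wj lv n s τ q (lv q : ℕ) y := by
    intro τ
    induction τ with
    | zero =>
      intro q y hg
      rw [Wj, traj]
      simp only [s]
      rw [if_pos]
      · exact Fin.le_last _
      · intro c
        cases c with
        | none => have := (lv q).2; simp only [pos, abs_le]; omega
        | some c => have := good_zero hg c; simp only [pos]; omega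
    | succ τ ih =>
      intro q y hg
      refine Wj.bwd ((good_step hn hg).mono fun q' a b _ h => ?_)
      have := ih _ _ h
      rwa [show ((lv q : ℕ) : ℤ) + (lv q' : ℕ) - (lv q : ℕ) = (lv q' : ℕ) by ring]
  refine Set.infinite_of_injective_forall_mem (f := fun τ : ℕ => (τ, pos (lv .top : ℕ) 0))
    (fun a b e => congrArg Prod.fst e) (fun τ => ?_) (h s hs)
  exact (lt_of_lt_of_le (h0 _) (key τ .top 0 ⟨⟨by simp, by simp, by simp⟩, trivial⟩)).ne'

end Pool.Agent.H38.Ero

namespace Pool.Agent.H38.Ero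

open Pool.Agent.H38.CM Function

theorem primrec_ofNat : Primrec fun n : ℕ => (n : ℤ) := by
  refine Primrec.encode_iff.1 ((Primrec.nat_mul.comp (Primrec.const 2) Primrec.id).of_eq fun n => ?_)
  rfl

theorem main : ∃ (d k N : ℕ) (tr : (Fin N → Fin (k + 1)) → Fin (k + 1)),
    1 ≤ d ∧ 1 ≤ k ∧ Monotone tr ∧
      ¬ ComputablePred fun v : Fin N → Fin d → ℤ => Eroder v tr := by
  classical
  obtain ⟨P, hP⟩ := exists_undec
  haveI := Q.finite P (rb P)
  letI : Fintype (Q P (rb P)) := Fintype.ofFinite _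
  obtain ⟨m, ⟨e⟩⟩ := Finite.exists_equiv_fin (Q P (rb P))
  let lv : Q P (rb P) → Fin (m + 1 + 1) := fun q =>
    if q = .top then Fin.last _ else ⟨e q + 1, by have := (e q).2; omega⟩
  have h0 : ∀ q, 0 < lv q := fun q => by
    simp only [lv]; split_ifs
    · exact Fin.last_pos
    · exact Nat.succ_pos _
  have htop : lv .top = Fin.last _ := if_pos rfl
  have hinj : Injective lv := by
    intro a b h
    simp only [lv] at h
    split_ifs at h with h1 h2 h2
    · rw [h1, h2]
    · have := (e b).2; simp [Fin.ext_iff] at h; omega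
    · have := (e a).2; simp [Fin.ext_iff] at h; omega
    · exact e.injective (Fin.ext (by simpa using h))
  obtain ⟨N, ⟨g⟩⟩ := Finite.exists_equiv_fin (Nb P (rb P))
  obtain ⟨d, ⟨f⟩⟩ := Finite.exists_equiv_fin (Option (Option (C (rb P))))
  refine ⟨d, m + 1, N, fun x => trf lv fun i => x (g i), ?_, by omega,
    fun x y h => trf_mono lv fun i => h _, fun h => hP ?_⟩
  · have := (f none).2; omega
  have hc : Computable fun (n : ℕ) (i : Fin N) (c : Fin d) => vec lv n (g.symm i) (f.symm c) := by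
    refine Primrec.to_comp (Primrec.fin_curry.2 (Primrec₂.swap (Primrec.fin_curry₁.2 fun i => ?_)))
    refine Primrec.fin_curry.2 (Primrec₂.swap (Primrec.fin_curry₁.2 fun c => ?_))
    generalize g.symm i = i
    generalize f.symm c = c
    cases c with
    | none => exact Primrec.const _
    | some c =>
      by_cases hb : (i.2.2 c).2 = 0
      · exact (Primrec.const (kA i.2.2 c)).of_eq fun n => by simp [vec, pos, kB, hb]
      · have hb' : ((i.2.2 c).2 : ℕ) = 1 := by omega
        refine (primrec_ofNat.comp (Primrec.nat_add.comp Primrec.id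
          (Primrec.const ((i.2.2 c).1 : ℕ)))).of_eq fun n => ?_
        simp [vec, pos, kA, kB, hb']; ring
  have h2 : ComputablePred fun n : ℕ => Eroder
      (fun (i : Fin N) (c : Fin d) => vec lv n (g.symm i) (f.symm c))
      (fun x => trf lv fun i => x (g i)) := by
    obtain ⟨D, hD⟩ := h
    exact ⟨fun c => D _, hD.comp hc⟩
  refine h2.of_eq fun n => ?_
  exact (eroder_equiv g.symm f.symm (vec lv n) (trf lv)).trans
    ⟨halts_of_eroder h0, eroder_of_halts h0 hinj htop le_rfl⟩

end Pool.Agent.H38.Ero
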