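import Pool.Agent.H38.CM.Queue

/-! Simulation of while programs by a vector game with fuzzy zero tests. -/

namespace Pool.Agent.H38.Ero

open Pool.Agent.H38.CM Function

inductive C (K : ℕ) : Type
  | U : C K
  | Y : C K
  | reg (i : Fin K) : C K
  deriving DecidableEq, Fintype

inductive Mv : Type
  | nop : Mv
  | a (r : ℕ) (up : Bool) : Mv
  | b : Mv

def mv {K : ℕ} : Mv → C K → ℤ
  | .nop, _ => 0
  | .a _ _, .U => -1
  | .a _ _, .Y => 1
  | .a r up, .reg i => if i.val = r then (if up then 1 else -1) else 0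
  | .b, .U => 1
  | .b, .Y => -1
  | .b, .reg _ => 0

theorem mv_bd {K : ℕ} (m : Mv) (c : C K) : -1 ≤ mv m c ∧ mv m c ≤ 1 := by
  cases m <;> cases c <;> simp only [mv] <;> (try split_ifs) <;> omega

theorem mv_nop {K : ℕ} : (mv .nop : C K → ℤ) = 0 := rfl

def gT (r : ℕ) (up : Bool) : Fin 4 → Mv → Option (Fin 4) → Prop
  | 0, m, o => (m = .a r up ∧ o = some 0) ∨ (m = .nop ∧ o = some 1)
  | 1, m, o => m = .nop ∧ o = some 2
  | 2, m, o => (m = .b ∧ o = some 2) ∨ (m = .nop ∧ o = some 3)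
  | 3, m, o => m = .nop ∧ o = none

def gC {K : ℕ} : Fin 4 → C K → Prop
  | 0, _ => False
  | 1, c => c = .U
  | 2, _ => False
  | 3, c => c = .Y

def S : W → Type
  | .inc _ => Fin 4
  | .skip => Unit
  | .seq a b => S a ⊕ S b
  | .loop _ b => Bool ⊕ Fin 4 ⊕ S b

theorem S.finite : ∀ w, Finite (S w)
  | .inc _ => inferInstanceAs (Finite (Fin 4))
  | .skip => inferInstanceAs (Finite Unit)
  | .seq a b => by
    haveI := S.finite a; haveI := S.finite b; exact inferInstanceAs (Finite (S a ⊕ S b))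
  | .loop _ b => by haveI := S.finite b; exact inferInstanceAs (Finite (Bool ⊕ Fin 4 ⊕ S b))

def ent : (w : W) → S w
  | .inc _ => (0 : Fin 4)
  | .skip => ()
  | .seq a _ => .inl (ent a)
  | .loop _ _ => .inl false

def lift {α β : Type} (T : α → Mv → Option α → Prop) (f : α → β) (e : Option β) (s : α) (m : Mv)
    (o : Option β) : Prop := ∃ o', T s m o' ∧ o = jmp (fun t => some (f t)) e o'

def tT : (w : W) → S w → Mv → Option (S w) → Prop
  | .inc r, s, m, o => gT r true s m o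
  | .skip, _, m, o => m = .nop ∧ o = none
  | .seq a b, .inl s, m, o => lift (tT a) Sum.inl (some (.inr (ent b))) s m o
  | .seq _ b, .inr s, m, o => lift (tT b) Sum.inr none s m o
  | .loop _ _, .inl false, m, o => m = .nop ∧ (o = some (.inl true) ∨ o = some (.inr (.inl 0)))
  | .loop _ _, .inl true, m, o => m = .nop ∧ o = none
  | .loop r b, .inr (.inl g), m, o =>
    lift (gT r false) (fun t => .inr (.inl t)) (some (.inr (.inr (ent b)))) g m o
  | .loop _ b, .inr (.inr s), m, o =>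
    lift (tT b) (fun t => .inr (.inr t)) (some (.inl false)) s m o

def tC {K : ℕ} : (w : W) → S w → C K → Prop
  | .inc _, s, c => gC s c
  | .skip, _, _ => False
  | .seq a _, .inl s, c => tC a s c
  | .seq _ b, .inr s, c => tC b s c
  | .loop _ _, .inl false, _ => False
  | .loop r _, .inl true, c => ∃ i : Fin K, i.val = r ∧ c = .reg i
  | .loop _ _, .inr (.inl g), c => gC g c
  | .loop _ b, .inr (.inr s), c => tC b s c

def rb : W → ℕ
  | .inc r => r + 1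
  | .skip => 1
  | .seq a b => rb a + rb b
  | .loop r b => r + 1 + rb b

theorem rb_pos : ∀ w, 0 < rb w
  | .inc r => by simp [rb]
  | .skip => by simp [rb]
  | .seq a b => by have := rb_pos a; simp only [rb]; omega
  | .loop _ b => by simp only [rb]; omega

/-! ### Soundness -/

structure Snd {K : ℕ} {σ : Type} (B M : ℤ) (T : σ → Mv → Option σ → Prop) (Ck : σ → C K → Prop)
    (V : ℤ → Option σ → (C K → ℤ) → Prop) : Prop where
  lo : ∀ {ψ o z}, V ψ o z → ∀ c, -B ≤ z c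
  ck : ∀ {ψ s z c}, V ψ (some s) z → Ck s c → z c ≤ B
  st : ∀ {ψ s z}, V ψ (some s) z → B + 1 < ψ → ∃ m o, T s m o ∧ V (ψ - M) o (z + mv m)
  mono : ∀ {ψ ψ' o z}, ψ' ≤ ψ → V ψ o z → V ψ' o z

variable {K : ℕ} {B M : ℤ}

theorem Snd.lift {σ ρ : Type} {T : σ → Mv → Option σ → Prop} {Ck : σ → C K → Prop}
    {V : ℤ → Option σ → (C K → ℤ) → Prop} (h : Snd B M T Ck V)
    {T' : ρ → Mv → Option ρ → Prop} {Ck' : ρ → C K → Prop} (f : ρ → σ) (e : Option σ)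
    (hT : ∀ s m o, T (f s) m o → lift T' f e s m o) (hC : ∀ s c, Ck' s c → Ck (f s) c) :
    Snd B M T' Ck' fun ψ o => V ψ (jmp (fun t => some (f t)) e o) where
  lo := h.lo
  ck := fun h1 h2 => h.ck h1 (hC _ _ h2)
  st := fun h1 h2 => by
    obtain ⟨m, o, h3, h4⟩ := h.st h1 h2
    obtain ⟨o', h5, rfl⟩ := hT _ _ _ h3
    exact ⟨m, o', h5, h4⟩
  mono := h.mono

theorem Snd.phase {σ : Type} {T : σ → Mv → Option σ → Prop} {Ck : σ → C K → Prop}
    {V : ℤ → Option σ → (C K → ℤ) → Prop} (h : Snd B M T Ck V) (hM : 0 ≤ M) (s : σ) (m : Mv)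
    (o : Option σ) (c : C K) (hc : mv m c = -1)
    (hT : ∀ m' o', T s m' o' → (m' = m ∧ o' = some s) ∨ (m' = .nop ∧ o' = o)) (N : ℕ) :
    ∀ ψ z, z c + B ≤ N → V ψ (some s) z → B + 1 + (N + 1) * M < ψ →
      ∃ j : ℕ, V (ψ - (N + 1) * M) o (z + (j : ℤ) • mv m) := by
  induction N with
  | zero =>
    intro ψ z h1 h2 h3
    obtain ⟨m', o', h4, h5⟩ := h.st h2 (by simp at h3; omega)
    rcases hT _ _ h4 with ⟨rfl, rfl⟩ | ⟨rfl, rfl⟩
    · have := h.lo h5 c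
      simp [hc] at this h1; omega
    · exact ⟨0, by simpa [mv_nop] using h5⟩
  | succ N ih =>
    intro ψ z h1 h2 h3
    have hN : (0 : ℤ) ≤ (N + 1) * M := by positivity
    push_cast at h1 h3 ⊢
    obtain ⟨m', o', h4, h5⟩ := h.st h2 (by nlinarith)
    rcases hT _ _ h4 with ⟨rfl, rfl⟩ | ⟨rfl, rfl⟩
    · obtain ⟨j, hj⟩ := ih _ _ (by simp [hc]; omega) h5 (by nlinarith)
      refine ⟨j + 1, ?_⟩
      convert hj using 1
      · ring
      · push_cast; rw [add_smul, one_smul]; abel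
    · exact ⟨0, h.mono (ψ := ψ - M) (by nlinarith) (by simpa [mv_nop] using h5)⟩

theorem gadget (hB : 0 ≤ B) (hM : 0 ≤ M) (r : ℕ) (up : Bool) (e U0 : ℤ) : ∃ Δ, 0 ≤ Δ ∧
    ∀ (V : ℤ → Option (Fin 4) → (C K → ℤ) → Prop), Snd B M (gT r up) gC V → ∀ ψ z,
      |z .U - U0| ≤ e → |z .Y| ≤ B → V ψ (some 0) z → B + 1 + Δ < ψ →
      ∃ (z' : C K → ℤ) (j : ℤ), V (ψ - Δ) none z' ∧ |j - U0| ≤ e + B ∧
        |z' .U - U0| ≤ e + 2 * B ∧ |z' .Y| ≤ B ∧
        ∀ i, z' (.reg i) = z (.reg i) + if i.val = r then (if up then j else -j) else 0 := by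
  obtain ⟨N, hN⟩ : ∃ N : ℕ, U0 + e + 3 * B ≤ N := ⟨(U0 + e + 3 * B).toNat, by omega⟩
  have hNM : (0 : ℤ) ≤ (N + 1) * M := by positivity
  refine ⟨2 * ((N + 1) * M) + 2 * M, by positivity, fun V h ψ z h1 h2 h3 h4 => ?_⟩
  rw [abs_le] at h1 h2
  obtain ⟨j, a1⟩ := h.phase hM 0 (.a r up) (some 1) .U rfl (fun _ _ h => h) N ψ z (by omega) h3
    (by omega)
  have b1 := h.lo a1 .U
  have b2 := h.ck a1 (c := .U) rfl
  obtain ⟨_, _, ⟨rfl, rfl⟩, a2⟩ := h.st a1 (by omega)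
  simp only [Pi.add_apply, Pi.smul_apply, mv, smul_eq_mul] at b1 b2
  obtain ⟨i, a3⟩ := h.phase hM 2 .b (some 3) .Y rfl (fun _ _ h => h) N _ _
    (by simp [mv]; omega) a2 (by omega)
  have b3 := h.lo a3 .Y
  have b4 := h.ck a3 (c := .Y) rfl
  obtain ⟨_, _, ⟨rfl, rfl⟩, a4⟩ := h.st a3 (by omega)
  simp only [Pi.add_apply, Pi.smul_apply, mv, smul_eq_mul] at b3 b4
  refine ⟨_, j, h.mono (by omega) a4, abs_le.2 (by omega), ?_, ?_, fun i => ?_⟩
  · simp only [Pi.add_apply, Pi.smul_apply, mv, smul_eq_mul, abs_le]; omega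
  · simp only [Pi.add_apply, Pi.smul_apply, mv, smul_eq_mul, abs_le]; omega
  · simp only [Pi.add_apply, Pi.smul_apply, mv, smul_eq_mul]
    split_ifs <;> simp

def Ap (B e U0 : ℤ) (v : ℕ → ℕ) (z : C K → ℤ) : Prop :=
  |z .U - U0| ≤ e ∧ |z .Y| ≤ B ∧ ∀ i : Fin K, |z (.reg i) - v i * U0| ≤ e

theorem Ap.mono {e e' U0 : ℤ} {v : ℕ → ℕ} {z : C K → ℤ} (h : Ap B e U0 v z) (he : e ≤ e') :
    Ap B e' U0 v z := ⟨h.1.trans he, h.2.1, fun i => (h.2.2 i).trans he⟩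

theorem sim (hB : 0 ≤ B) (hM : 0 ≤ M) {w : W} {v v' : ℕ → ℕ} (h : Ev w v v') : rb w ≤ K →
    ∀ e, B ≤ e → ∃ e', e ≤ e' ∧ ∀ U0, e' + B < U0 → ∃ Δ, 0 ≤ Δ ∧
      ∀ (V : ℤ → Option (S w) → (C K → ℤ) → Prop), Snd B M (tT w) (tC w) V → ∀ ψ z,
        Ap B e U0 v z → V ψ (some (ent w)) z → B + 1 + Δ < ψ →
        ∃ z', Ap B e' U0 v' z' ∧ V (ψ - Δ) none z' := by
  induction h with
  | inc r v =>
    intro hK e he
    refine ⟨2 * e + 2 * B, by omega, fun U0 hU => ?_⟩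
    obtain ⟨Δ, h0, hΔ⟩ := gadget (K := K) hB hM r true e U0
    refine ⟨Δ, h0, fun V hV ψ z ha h1 h2 => ?_⟩
    obtain ⟨z', j, a1, a2, a3, a4, a5⟩ := hΔ V hV ψ z ha.1 ha.2.1 h1 h2
    refine ⟨z', ⟨a3.trans (by omega), a4, fun i => ?_⟩, a1⟩
    have := ha.2.2 i
    rw [a5]
    rw [abs_le] at *
    by_cases hi : i.val = r
    · subst hi; simp only [update_self, if_true]; push_cast; rw [add_mul]; omega
    · simp only [update_of_ne hi, if_neg hi]; omega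
  | skip v =>
    intro hK e he
    refine ⟨e, le_rfl, fun U0 hU => ⟨M, hM, fun V hV ψ z ha h1 h2 => ?_⟩⟩
    obtain ⟨_, _, ⟨rfl, rfl⟩, a⟩ := hV.st h1 (by omega)
    exact ⟨z, ha, by simpa [mv_nop] using a⟩
  | @seq a b _ _ _ _ _ ih1 ih2 =>
    intro hK e he
    simp only [rb] at hK
    obtain ⟨e1, l1, g1⟩ := ih1 (by omega) e he
    obtain ⟨e2, l2, g2⟩ := ih2 (by omega) e1 (by omega)
    refine ⟨e2, by omega, fun U0 hU => ?_⟩
    obtain ⟨Δ1, p1, g1⟩ := g1 U0 (by omega)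
    obtain ⟨Δ2, p2, g2⟩ := g2 U0 hU
    refine ⟨Δ1 + Δ2, by omega, fun V hV ψ z ha h1 h2 => ?_⟩
    obtain ⟨z1, a1, b1⟩ := g1 _ (hV.lift Sum.inl (some (.inr (ent b))) (fun _ _ _ h => h)
      (fun _ _ h => h)) ψ z ha h1 (by omega)
    obtain ⟨z2, a2, b2⟩ := g2 _ (hV.lift Sum.inr none (fun _ _ _ h => h)
      (fun _ _ h => h)) _ z1 a1 b1 (by omega)
    exact ⟨z2, a2, hV.mono (by omega) b2⟩
  | @l0 r b v h0 =>
    intro hK e he
    simp only [rb] at hK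
    refine ⟨2 * e + B, by omega, fun U0 hU => ?_⟩
    obtain ⟨Δ, p0, hΔ⟩ := gadget (K := K) hB hM r false e U0
    refine ⟨Δ + 2 * M, by omega, fun V hV ψ z ha h1 h2 => ?_⟩
    obtain ⟨_, _, ⟨rfl, rfl | rfl⟩, a⟩ := hV.st h1 (by omega)
    · obtain ⟨_, _, ⟨rfl, rfl⟩, a'⟩ := hV.st a (by omega)
      exact ⟨z, ha.mono (by omega), hV.mono (ψ := ψ - M - M) (by omega)
        (by simpa [mv_nop] using a')⟩
    · exfalso
      obtain ⟨z', j, a1, a2, a3, a4, a5⟩ := hΔ _ (hV.lift (fun t => .inr (.inl t))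
        (some (.inr (.inr (ent b)))) (fun _ _ _ h => h) (fun _ _ h => h)) (ψ - M) z ha.1 ha.2.1
        (by rw [mv_nop, add_zero] at a; exact a) (by omega)
      have c1 := hV.lo a1 (.reg ⟨r, by omega⟩)
      have c2 := ha.2.2 ⟨r, by omega⟩
      rw [a5] at c1
      simp only [h0, if_true, Bool.false_eq_true, if_false, Nat.cast_zero, zero_mul] at c1 c2
      rw [abs_le] at *
      omega
  | @l1 r b v u w n h1 _ _ ih1 ih2 =>
    intro hK e he
    have hK' := hK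
    simp only [rb] at hK
    obtain ⟨e1, l1, g1⟩ := ih1 (by omega) (2 * e + 2 * B) (by omega)
    obtain ⟨e2, l2, g2⟩ := ih2 hK' e1 (by omega)
    refine ⟨e2, by omega, fun U0 hU => ?_⟩
    obtain ⟨Δ, p0, hΔ⟩ := gadget (K := K) hB hM r false e U0
    obtain ⟨Δ1, p1, g1⟩ := g1 U0 (by omega)
    obtain ⟨Δ2, p2, g2⟩ := g2 U0 hU
    refine ⟨M + Δ + Δ1 + Δ2, by omega, fun V hV ψ z ha h2 h3 => ?_⟩
    obtain ⟨_, _, ⟨rfl, rfl | rfl⟩, a⟩ := hV.st h2 (by omega)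
    · exfalso
      have c1 := hV.ck a (c := .reg ⟨r, by omega⟩) ⟨_, rfl, rfl⟩
      have c2 := ha.2.2 ⟨r, by omega⟩
      have c3 : (0 : ℤ) ≤ n * U0 := mul_nonneg (by omega) (by omega)
      simp only [h1, mv_nop, add_zero] at c1 c2
      push_cast at c2
      rw [abs_le, add_mul] at c2
      omega
    · obtain ⟨z', j, a1, a2, a3, a4, a5⟩ := hΔ _ (hV.lift (fun t => .inr (.inl t))
        (some (.inr (.inr (ent b)))) (fun _ _ _ h => h) (fun _ _ h => h)) (ψ - M) z ha.1 ha.2.1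
        (by rw [mv_nop, add_zero] at a; exact a) (by omega)
      have hz' : Ap B (2 * e + 2 * B) U0 (update v r n) z' := by
        refine ⟨a3.trans (by omega), a4, fun i => ?_⟩
        have := ha.2.2 i
        rw [a5]
        rw [abs_le] at *
        by_cases hi : i.val = r
        · subst hi
          simp only [update_self, if_true, Bool.false_eq_true, if_false]
          rw [h1] at this; push_cast at this; rw [add_mul] at this; omega
        · simp only [update_of_ne hi, if_neg hi]; omega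
      obtain ⟨z1, c1, b1⟩ := g1 _ (hV.lift (fun t => .inr (.inr t)) (some (.inl false))
        (fun _ _ _ h => h) (fun _ _ h => h)) _ z' hz' a1 (by omega)
      obtain ⟨z2, c2, b2⟩ := g2 _ hV _ z1 c1 b1 (by omega)
      exact ⟨z2, c2, hV.mono (by omega) b2⟩

/-! ### The honest player -/

def Ex (U0 : ℕ) (v : ℕ → ℕ) (z : C K → ℤ) : Prop :=
  z .U = U0 ∧ z .Y = 0 ∧ ∀ i : Fin K, z (.reg i) = v i * U0

/-- Invariant of the gadget; `v` is the valuation at the end of the gadget. -/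
def gI (r : ℕ) (up : Bool) (U0 : ℕ) (v : ℕ → ℕ) : Option (Fin 4) → (C K → ℤ) → Prop
  | some 0, z => ∃ j : ℕ, j ≤ U0 ∧ z .U = j ∧ z .Y = U0 - j ∧ ∀ i : Fin K,
      z (.reg i) = v i * U0 + if i.val = r then (if up then -(j : ℤ) else j) else 0
  | some 1, z => z .U = 0 ∧ z .Y = U0 ∧ ∀ i : Fin K, z (.reg i) = v i * U0
  | some 2, z => ∃ j : ℕ, j ≤ U0 ∧ z .Y = j ∧ z .U = U0 - j ∧ ∀ i : Fin K, z (.reg i) = v i * U0
  | some 3, z => Ex U0 v z
  | none, z => Ex U0 v z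

theorem gI_step (r : ℕ) (up : Bool) (U0 : ℕ) (v : ℕ → ℕ) (s : Fin 4) (z : C K → ℤ)
    (h : gI r up U0 v (some s) z) : ∃ m o, gT r up s m o ∧ gI r up U0 v o (z + mv m) := by
  match s, h with
  | 0, ⟨j, h1, h2, h3, h4⟩ =>
    cases j with
    | zero =>
      exact ⟨_, _, Or.inr ⟨rfl, rfl⟩, by simpa [mv] using h2, by simpa [mv] using h3,
        fun i => by simpa [mv] using h4 i⟩
    | succ j =>
      refine ⟨_, _, Or.inl ⟨rfl, rfl⟩, j, by omega, by simp [mv, h2], by simp [mv, h3]; ring,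
        fun i => ?_⟩
      simp only [Pi.add_apply, mv, h4]
      split_ifs <;> push_cast <;> ring
  | 1, ⟨h1, h2, h3⟩ =>
    exact ⟨_, _, ⟨rfl, rfl⟩, U0, le_rfl, by simp [mv, h2], by simp [mv, h1],
      fun i => by simp [mv, h3]⟩
  | 2, ⟨j, h1, h2, h3, h4⟩ =>
    cases j with
    | zero =>
      exact ⟨_, _, Or.inr ⟨rfl, rfl⟩, by simpa [mv] using h3, by simpa [mv] using h2,
        fun i => by simpa [mv] using h4 i⟩
    | succ j =>
      exact ⟨_, _, Or.inl ⟨rfl, rfl⟩, j, by omega, by simp [mv, h2], by simp [mv, h3]; ring,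
        fun i => by simp [mv, h4]⟩
  | 3, h => exact ⟨_, _, ⟨rfl, rfl⟩, by rw [mv_nop, add_zero]; exact h⟩

theorem Ex.nonneg {U0 : ℕ} {v : ℕ → ℕ} {z : C K → ℤ} (h : Ex U0 v z) (c : C K) : 0 ≤ z c := by
  cases c with
  | U => rw [h.1]; positivity
  | Y => rw [h.2.1]
  | reg i => rw [h.2.2]; positivity

theorem gI_nonneg (r : ℕ) (up : Bool) (U0 : ℕ) (v : ℕ → ℕ) (hv : up = true → 1 ≤ v r) (s : Fin 4)
    (z : C K → ℤ) (h : gI r up U0 v (some s) z) (c : C K) : 0 ≤ z c ∧ (gC s c → z c ≤ 0) := by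
  match s, h with
  | 0, ⟨j, h1, h2, h3, h4⟩ =>
    refine ⟨?_, False.elim⟩
    cases c with
    | U => omega
    | Y => omega
    | reg i =>
      rw [h4]
      have : (0 : ℤ) ≤ v i * U0 := by positivity
      split_ifs with a b
      · have h5 : (1 : ℤ) ≤ v i := by rw [a]; exact_mod_cast hv b
        have : (1 : ℤ) * U0 ≤ v i * U0 := mul_le_mul_of_nonneg_right h5 (by positivity)
        omega
      · omega
      · omega
  | 1, ⟨h1, h2, h3⟩ =>
    refine ⟨?_, by rintro rfl; omega⟩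
    cases c with
    | U => omega
    | Y => omega
    | reg i => rw [h3]; positivity
  | 2, ⟨j, h1, h2, h3, h4⟩ =>
    refine ⟨?_, False.elim⟩
    cases c with
    | U => omega
    | Y => omega
    | reg i => rw [h4]; positivity
  | 3, h => exact ⟨Ex.nonneg h c, by rintro rfl; rw [h.2.1]⟩

def tI (U0 : ℕ) : (w : W) → (ℕ → ℕ) → S w → (C K → ℤ) → Prop
  | .inc r, v, s, z => gI r true U0 (update v r (v r + 1)) (some s) z
  | .skip, v, _, z => Ex U0 v z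
  | .seq a _, v, .inl s, z => tI U0 a v s z
  | .seq a b, v, .inr s, z => ∃ v1, Ev a v v1 ∧ tI U0 b v1 s z
  | .loop r b, v, .inl false, z => ∃ v1, Back (.loop r b) v v1 ∧ Ex U0 v1 z
  | .loop r b, v, .inl true, z => ∃ v1, Back (.loop r b) v v1 ∧ v1 r = 0 ∧ Ex U0 v1 z
  | .loop r b, v, .inr (.inl g), z => ∃ v1 n, Back (.loop r b) v v1 ∧ v1 r = n + 1 ∧
      gI r false U0 (update v1 r n) (some g) z
  | .loop r b, v, .inr (.inr s), z => ∃ v1 n, Back (.loop r b) v v1 ∧ v1 r = n + 1 ∧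
      tI U0 b (update v1 r n) s z

def tI' (U0 : ℕ) (w : W) (v : ℕ → ℕ) : Option (S w) → (C K → ℤ) → Prop
  | none, z => ∃ v', Ev w v v' ∧ Ex U0 v' z
  | some s, z => tI U0 w v s z

theorem tI_ent (U0 : ℕ) : ∀ (w : W) (v : ℕ → ℕ) (z : C K → ℤ), Ex U0 v z → tI U0 w v (ent w) z
  | .inc r, v, z, h => ⟨U0, le_rfl, h.1, by simp [h.2.1], fun i => by
      rw [h.2.2]
      by_cases hi : i.val = r
      · subst hi; simp; ring
      · simp [update_of_ne hi, hi]⟩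
  | .skip, v, z, h => h
  | .seq a _, v, z, h => tI_ent U0 a v z h
  | .loop _ _, v, z, h => ⟨v, fun _ h => h, h⟩

theorem tI_nonneg (U0 : ℕ) : ∀ (w : W) (v : ℕ → ℕ) (s : S w) (z : C K → ℤ), tI U0 w v s z →
    ∀ c, 0 ≤ z c ∧ (tC w s c → z c ≤ 0)
  | .inc r, v, s, z, h => gI_nonneg r true U0 _ (by simp) s z h
  | .skip, v, s, z, h => fun c => ⟨Ex.nonneg h c, False.elim⟩
  | .seq a _, v, .inl s, z, h => tI_nonneg U0 a v s z h
  | .seq a b, v, .inr s, z, ⟨v1, _, h⟩ => tI_nonneg U0 b v1 s z h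
  | .loop r b, v, .inl false, z, ⟨v1, _, h⟩ => fun c => ⟨Ex.nonneg h c, False.elim⟩
  | .loop r b, v, .inl true, z, ⟨v1, _, h0, h⟩ => fun c => ⟨Ex.nonneg h c, by
      rintro ⟨i, rfl, rfl⟩; simp [h.2.2, h0]⟩
  | .loop r b, v, .inr (.inl g), z, ⟨v1, n, _, _, h⟩ => gI_nonneg r false U0 _ (by simp) g z h
  | .loop r b, v, .inr (.inr s), z, ⟨v1, n, _, _, h⟩ => tI_nonneg U0 b _ s z h

theorem tI_step (U0 : ℕ) : ∀ (w : W) (v : ℕ → ℕ) (s : S w) (z : C K → ℤ), tI U0 w v s z →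
    ∃ m o, tT w s m o ∧ tI' U0 w v o (z + mv m)
  | .inc r, v, s, z, h => by
    obtain ⟨m, o, h1, h2⟩ := gI_step r true U0 _ s z h
    cases o with
    | none => exact ⟨m, none, h1, _, Ev.inc _ _, h2⟩
    | some s' => exact ⟨m, some s', h1, h2⟩
  | .skip, v, s, z, h => ⟨_, _, ⟨rfl, rfl⟩, v, Ev.skip _, by rw [mv_nop, add_zero]; exact h⟩
  | .seq a b, v, .inl s, z, h => by
    obtain ⟨m, o, h1, h2⟩ := tI_step U0 a v s z h
    refine ⟨m, _, ⟨o, h1, rfl⟩, ?_⟩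
    cases o with
    | none => obtain ⟨v1, h2, h3⟩ := h2; exact ⟨v1, h2, tI_ent U0 b v1 _ h3⟩
    | some s' => exact h2
  | .seq a b, v, .inr s, z, ⟨v1, h0, h⟩ => by
    obtain ⟨m, o, h1, h2⟩ := tI_step U0 b v1 s z h
    refine ⟨m, _, ⟨o, h1, rfl⟩, ?_⟩
    cases o with
    | none => obtain ⟨v2, h2, h3⟩ := h2; exact ⟨v2, Ev.seq h0 h2, h3⟩
    | some s' => exact ⟨v1, h0, h2⟩
  | .loop r b, v, .inl false, z, ⟨v1, h0, h⟩ => by
    cases hv : v1 r with
    | zero => exact ⟨_, _, ⟨rfl, Or.inl rfl⟩, v1, h0, hv, by simpa [mv_nop] using h⟩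
    | succ n =>
      refine ⟨_, _, ⟨rfl, Or.inr rfl⟩, v1, n, h0, hv, U0, le_rfl, by simp [mv, h.1],
        by simp [mv, h.2.1], fun i => ?_⟩
      by_cases hi : i.val = r
      · subst hi; simp [mv, h.2.2, hv]; ring
      · simp [mv, h.2.2, update_of_ne hi, hi]
  | .loop r b, v, .inl true, z, ⟨v1, h0, h1, h⟩ =>
    ⟨_, _, ⟨rfl, rfl⟩, v1, h0 _ (Ev.l0 h1), by simpa [mv_nop] using h⟩
  | .loop r b, v, .inr (.inl g), z, ⟨v1, n, h0, hv, h⟩ => by
    obtain ⟨m, o, h1, h2⟩ := gI_step r false U0 _ g z h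
    refine ⟨m, _, ⟨o, h1, rfl⟩, ?_⟩
    cases o with
    | none => exact ⟨v1, n, h0, hv, tI_ent U0 b _ _ h2⟩
    | some s' => exact ⟨v1, n, h0, hv, h2⟩
  | .loop r b, v, .inr (.inr s), z, ⟨v1, n, h0, hv, h⟩ => by
    obtain ⟨m, o, h1, h2⟩ := tI_step U0 b _ s z h
    refine ⟨m, _, ⟨o, h1, rfl⟩, ?_⟩
    cases o with
    | none => obtain ⟨v2, h2, h3⟩ := h2; exact ⟨v2, fun u hu => h0 _ (Ev.l1 hv h2 hu), h3⟩
    | some s' => exact ⟨v1, n, h0, hv, h2⟩

end Pool.Agent.H38.Ero
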